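import Pool.Agent.MP_024e69_an.Mg.Main

open MeasureTheory Pool.Agent.MP_024e69_an

namespace Pool.Agent.Results.MP_024e69_an.FineDomain

/-- Removing a set of zero Sobolev capacity from a `p`-fine domain leaves a `p`-fine domain. -/
theorem result {X : Type*} [MetricSpace X] [MeasurableSpace X] [BorelSpace X]
    (μ : Measure X) (p : ℝ) (hp : 1 < p) (hd : IsDoubling μ) (hPI : SupportsPoincare μ p)
    (U E : Set X) (hU : IsFineDomain μ p U) (hE : sobolevCap μ p E = 0) :
    IsFineDomain μ p (U \ E) := by
  have : Fact (1 < p) := ⟨hp⟩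
  obtain ⟨S⟩ := exists_setting hd hPI
  exact S.fineDomain_diff hU hE

end Pool.Agent.Results.MP_024e69_an.FineDomain
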